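import Pool.Agent.Lib.MP_cd2b7c_an.SV.Fin

open MeasureTheory

namespace Pool.Agent.Results.MP_cd2b7c_an.BoundedFactors

/-- Let `G` be a profinite group whose non-commutative simple sections `K / M` (`K` open in `G`,
`M` open and normal in `K`) have bounded order, and let `1 < q < ∞`. All left invariant linear
functionals on `L^q(G)` are continuous if and only if `G` has a finitely generated dense
subgroup. -/
theorem result (G : Type*) [Group G] [TopologicalSpace G] [IsTopologicalGroup G] [CompactSpace G]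
    [TotallyDisconnectedSpace G] [MeasurableSpace G] [BorelSpace G]
    (μ : Measure G) [μ.IsHaarMeasure] (q : ENNReal) [Fact (1 ≤ q)] (h1 : 1 < q) (hq : q ≠ ⊤)
    (b : ℕ) (hb : ∀ (K : Subgroup G) (M : Subgroup K) [M.Normal], IsOpen (K : Set G) →
      IsOpen (M : Set K) → IsSimpleGroup (K ⧸ M) →
      (∀ x y : K ⧸ M, x * y = y * x) ∨ Nat.card (K ⧸ M) ≤ b) :
    (∀ φ : Lp ℂ q μ →ₗ[ℂ] ℂ,
      (∀ (a : G) (f g : Lp ℂ q μ),
        (g : G → ℂ) =ᵐ[μ] (fun x => (f : G → ℂ) (a * x)) → φ g = φ f) → Continuous φ) ↔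
    ∃ S : Finset G, Dense (Subgroup.closure (S : Set G) : Set G) :=
  Pool.Agent.Lib.MP_cd2b7c_an.SV.auto_iff' q h1 hq
    (fun N _ hN => Pool.Agent.Lib.MP_cd2b7c_an.SV.sec_quot hb N hN) μ

end Pool.Agent.Results.MP_cd2b7c_an.BoundedFactors
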